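import Mathlib

set_option autoImplicit false

open Set

namespace Pool.Agent.helper12

section Alg

variable {T : Type} {O : Set (Set T)} {G : Type} [AddCommGroup G] [Lattice G]
  [IsOrderedAddMonoid G]

/-- The element of `O` corresponding to the principal ideal generated by `f`. -/
noncomputable def U (F : O ≃o {I : Set G // ∃ a : G, I = {x : G | ∃ n : ℕ, |x| ≤ n • |a|}})
    (f : G) : Set T :=
  ((F.symm ⟨{x : G | ∃ n : ℕ, |x| ≤ n • |f|}, f, rfl⟩ : O) : Set T)

variable (F : O ≃o {I : Set G // ∃ a : G, I = {x : G | ∃ n : ℕ, |x| ≤ n • |a|}})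

theorem U_mem (f : G) : U F f ∈ O := Subtype.property _

theorem nsmul_le_nsmul_left' {a b : G} (h : a ≤ b) (n : ℕ) : n • a ≤ n • b :=
  nsmul_le_nsmul_right h n

theorem U_subset_iff (f g : G) : U F f ⊆ U F g ↔ ∃ n : ℕ, |f| ≤ n • |g| := by
  unfold U
  have h1 : (((F.symm ⟨{x : G | ∃ n : ℕ, |x| ≤ n • |f|}, f, rfl⟩ : O) : Set T) ⊆
      ((F.symm ⟨{x : G | ∃ n : ℕ, |x| ≤ n • |g|}, g, rfl⟩ : O) : Set T)) ↔
      (F.symm ⟨{x : G | ∃ n : ℕ, |x| ≤ n • |f|}, f, rfl⟩ ≤
        F.symm ⟨{x : G | ∃ n : ℕ, |x| ≤ n • |g|}, g, rfl⟩) := Iff.rfl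
  rw [h1, F.symm.le_iff_le]
  constructor
  · intro h
    have h2 : f ∈ {x : G | ∃ n : ℕ, |x| ≤ n • |f|} := ⟨1, by simp⟩
    exact h h2
  · rintro ⟨n, hn⟩ x ⟨m, hm⟩
    refine ⟨m * n, hm.trans ?_⟩
    rw [mul_nsmul']
    exact nsmul_le_nsmul_left' hn m

theorem U_surj (V : Set T) (hV : V ∈ O) : ∃ f : G, U F f = V := by
  obtain ⟨a, ha⟩ := (F ⟨V, hV⟩).2
  refine ⟨a, ?_⟩
  unfold U
  have : (⟨{x : G | ∃ n : ℕ, |x| ≤ n • |a|}, a, rfl⟩ :
      {I : Set G // ∃ a : G, I = {x : G | ∃ n : ℕ, |x| ≤ n • |a|}}) = F ⟨V, hV⟩ := by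
    apply Subtype.ext
    exact ha.symm
  rw [this, OrderIso.symm_apply_apply]

theorem U_mono {f g : G} (h0 : 0 ≤ f) (h : f ≤ g) : U F f ⊆ U F g := by
  rw [U_subset_iff]
  refine ⟨1, ?_⟩
  rw [one_nsmul, abs_of_nonneg h0, abs_of_nonneg (h0.trans h)]
  exact h

theorem U_add (hun : ∀ A ∈ O, ∀ B ∈ O, A ∪ B ∈ O) (f g : G) :
    U F (f + g) ⊆ U F f ∪ U F g := by
  obtain ⟨h, hh⟩ := U_surj F _ (hun _ (U_mem F f) _ (U_mem F g))
  rw [← hh]
  have h1 : U F f ⊆ U F h := by rw [hh]; exact subset_union_left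
  have h2 : U F g ⊆ U F h := by rw [hh]; exact subset_union_right
  rw [U_subset_iff] at h1 h2 ⊢
  obtain ⟨n, hn⟩ := h1
  obtain ⟨m, hm⟩ := h2
  refine ⟨n + m, ?_⟩
  rw [add_nsmul]
  exact (abs_add_le f g).trans (add_le_add hn hm)

theorem U_zero (hemp : ∅ ∈ O) : U F (0 : G) = ∅ := by
  obtain ⟨h, hh⟩ := U_surj F _ hemp
  apply Set.eq_empty_of_subset_empty
  rw [← hh, U_subset_iff]
  exact ⟨0, by simp⟩

theorem inf_add_le_aux {a b c : G} (ha : 0 ≤ a) (hb : 0 ≤ b) (hc : 0 ≤ c) :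
    (a + b) ⊓ c ≤ a ⊓ c + b ⊓ c := by
  rw [add_inf, inf_add, inf_add]
  refine le_inf (le_inf inf_le_left ?_) (le_inf ?_ ?_)
  · exact inf_le_right.trans (le_add_of_nonneg_right hb)
  · exact inf_le_right.trans (le_add_of_nonneg_left ha)
  · exact inf_le_right.trans (le_add_of_nonneg_left hc)

theorem disj_nsmul {f g : G} (hf : 0 ≤ f) (hg : 0 ≤ g) (h : f ⊓ g = 0) (n : ℕ) :
    (n • f) ⊓ g = 0 := by
  induction n with
  | zero => simpa using hg
  | succ n ih =>
    apply le_antisymm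
    · rw [succ_nsmul]
      have := inf_add_le_aux (nsmul_nonneg hf n) hf hg
      rw [ih, h, add_zero] at this
      exact this
    · exact le_inf (nsmul_nonneg hf _) hg

theorem U_disj (hemp : ∅ ∈ O) (hin : ∀ A ∈ O, ∀ B ∈ O, A ∩ B ∈ O) {f g : G}
    (h : f ⊓ g = 0) : U F f ∩ U F g = ∅ := by
  have hf : 0 ≤ f := h ▸ inf_le_left
  have hg : 0 ≤ g := h ▸ inf_le_right
  obtain ⟨k, hk⟩ := U_surj F _ (hin _ (U_mem F f) _ (U_mem F g))
  have h1 : U F k ⊆ U F f := by rw [hk]; exact inter_subset_left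
  have h2 : U F k ⊆ U F g := by rw [hk]; exact inter_subset_right
  rw [U_subset_iff] at h1 h2
  obtain ⟨n, hn⟩ := h1
  obtain ⟨m, hm⟩ := h2
  rw [abs_of_nonneg hf] at hn
  rw [abs_of_nonneg hg] at hm
  have h3 : (n • f) ⊓ (m • g) = 0 := by
    have := disj_nsmul hf hg h n
    rw [inf_comm] at this ⊢
    exact disj_nsmul hg (nsmul_nonneg hf n) this m
  have h4 : |k| ≤ 0 := by
    rw [← h3]; exact le_inf hn hm
  have h5 : k = 0 := by
    have h6 := le_antisymm h4 (abs_nonneg k)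
    apply le_antisymm
    · exact (le_abs_self k).trans h4
    · have := (neg_le_abs k).trans h4
      exact neg_nonpos.mp this
  rw [← hk, h5]
  exact U_zero F hemp

/-- `f` is positive at `x`. -/
def P (f : G) (x : T) : Prop := x ∈ U F (f ⊔ 0)

theorem P_of_le_zero (hemp : ∅ ∈ O) {f : G} (h : f ≤ 0) (x : T) : ¬ P F f x := by
  unfold P
  rw [sup_eq_right.mpr h, U_zero F hemp]
  exact fun h => h

theorem P_not_both (hemp : ∅ ∈ O) (hin : ∀ A ∈ O, ∀ B ∈ O, A ∩ B ∈ O) {f : G} {x : T}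
    (h1 : P F f x) (h2 : P F (-f) x) : False := by
  have : f ⊔ 0 ⊓ (-f) ⊔ 0 = (f ⊔ 0) ⊓ ((-f) ⊔ 0) ∨ True := Or.inr trivial
  have h3 : (f ⊔ 0) ⊓ ((-f) ⊔ 0) = 0 := by
    have := posPart_inf_negPart_eq_zero f
    rwa [posPart_def, negPart_def] at this
  have h4 := U_disj F hemp hin h3
  have h5 : x ∈ U F (f ⊔ 0) ∩ U F (-f ⊔ 0) := ⟨h1, h2⟩
  rw [h4] at h5
  exact h5

theorem P_add (hun : ∀ A ∈ O, ∀ B ∈ O, A ∪ B ∈ O) {f g : G} {x : T}
    (h : P F (f + g) x) : P F f x ∨ P F g x := by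
  have h1 : (f + g) ⊔ 0 ≤ (f ⊔ 0) + (g ⊔ 0) := by
    apply sup_le
    · exact add_le_add le_sup_left le_sup_left
    · exact add_nonneg le_sup_right le_sup_right
  have h2 := U_mono F le_sup_right h1 h
  exact U_add F hun _ _ h2

theorem P_nsmul (hemp : ∅ ∈ O) (hun : ∀ A ∈ O, ∀ B ∈ O, A ∪ B ∈ O) {f : G} {x : T} (n : ℕ)
    (h : P F (n • f) x) : P F f x := by
  induction n with
  | zero =>
    exfalso
    rw [zero_nsmul] at h
    exact P_of_le_zero F hemp le_rfl x h
  | succ n ih =>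
    rw [succ_nsmul] at h
    rcases P_add F hun h with h | h
    · exact ih h
    · exact h

theorem mem_U_of_P {f : G} {x : T} (h : P F f x) : x ∈ U F f := by
  refine (U_subset_iff F (f ⊔ 0) f).mpr ⟨1, ?_⟩ h
  rw [one_nsmul, abs_of_nonneg le_sup_right]
  exact sup_le (le_abs_self f) (abs_nonneg f)

theorem P_or_of_mem_U (hun : ∀ A ∈ O, ∀ B ∈ O, A ∪ B ∈ O) {f : G} {x : T} (h : x ∈ U F f) :
    P F f x ∨ P F (-f) x := by
  have h1 : U F f ⊆ U F ((f ⊔ 0) + ((-f) ⊔ 0)) := by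
    rw [U_subset_iff]
    refine ⟨1, ?_⟩
    rw [one_nsmul, abs_of_nonneg (add_nonneg le_sup_right le_sup_right : (0:G) ≤ (f ⊔ 0) + ((-f) ⊔ 0))]
    exact abs_le'.mpr ⟨(le_sup_left : f ≤ f ⊔ 0).trans (le_add_of_nonneg_right le_sup_right),
      (le_sup_left : -f ≤ -f ⊔ 0).trans (le_add_of_nonneg_left le_sup_right)⟩
  exact U_add F hun _ _ (h1 h)

theorem U_neg (f : G) : U F (-f) = U F f := by
  apply Set.Subset.antisymm <;> rw [U_subset_iff] <;> exact ⟨1, by simp⟩

theorem U_abs (f : G) : U F |f| = U F f := by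
  apply Set.Subset.antisymm <;> rw [U_subset_iff] <;> exact ⟨1, by simp⟩

/-- Archimedean property at closed points. -/
theorem P_arch (hemp : ∅ ∈ O) (hun : ∀ A ∈ O, ∀ B ∈ O, A ∪ B ∈ O)
    (hin : ∀ A ∈ O, ∀ B ∈ O, A ∩ B ∈ O) {u : G} (hu : 0 ≤ u) 
    {x : T} (hx : {x}ᶜ ∈ O) {h : G} (hP : P F h x) : ∃ l : ℕ, P F (l • h - u) x := by
  obtain ⟨v, hv⟩ := U_surj F _ hx
  have h1 : U F u ⊆ U F (|v| + (h ⊔ 0)) := by
    intro y _
    by_cases hy : y = x
    · rw [hy]
      exact U_mono F le_sup_right (le_add_of_nonneg_left (abs_nonneg v)) hP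
    · have : y ∈ U F |v| := by rw [U_abs, hv]; exact hy
      exact U_mono F (abs_nonneg v) (le_add_of_nonneg_right le_sup_right) this
  rw [U_subset_iff] at h1
  obtain ⟨n, hn⟩ := h1
  rw [abs_of_nonneg hu, abs_of_nonneg (add_nonneg (abs_nonneg v) le_sup_right), nsmul_add] at hn
  have h2 : ¬ P F (u - n • (h ⊔ 0)) x := by
    intro hc
    have h3 : (u - n • (h ⊔ 0)) ⊔ 0 ≤ n • |v| := by
      apply sup_le
      · rw [sub_le_iff_le_add]; exact hn
      · exact nsmul_nonneg (abs_nonneg v) n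
    have h4 := U_mono F le_sup_right h3 hc
    have h5 : U F (n • |v|) ⊆ U F v := by
      rw [U_subset_iff]
      refine ⟨n, ?_⟩
      rw [abs_of_nonneg (nsmul_nonneg (abs_nonneg v) n)]
    have h6 := h5 h4
    rw [hv] at h6
    exact h6 rfl
  have h3 : ¬ P F (u - n • h) x := by
    intro hc
    have e : u - n • h = (u - n • (h ⊔ 0)) + n • ((-h) ⊔ 0) := by
      have e1 : h ⊔ 0 - (-h) ⊔ 0 = h := by
        have := posPart_sub_negPart h
        rwa [posPart_def, negPart_def] at this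
      have e2 : n • h = n • (h ⊔ 0) - n • ((-h) ⊔ 0) := by
        rw [← nsmul_sub, e1]
      rw [e2]; abel
    rw [e] at hc
    rcases P_add F hun hc with hc | hc
    · exact h2 hc
    · have h4 := P_nsmul F hemp hun n hc
      have h5 : P F (-h) x := by
        unfold P at h4 ⊢
        rwa [sup_assoc, sup_idem] at h4
      exact P_not_both F hemp hin hP h5
  refine ⟨n + 1, ?_⟩
  have e : h = ((n + 1) • h - u) + (u - n • h) := by
    rw [succ_nsmul]; abel
  have hP' := hP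
  rw [e] at hP'
  rcases P_add F hun hP' with hc | hc
  · exact hc
  · exact absurd hc h3

/-- The two-sided Dedekind cut of `f` at `x`. -/
def D (u f : G) (x : T) : Set (ℤ × ℤ) := {p | P F (p.2 • f - p.1 • u) x}

theorem D_eq_of_not_mem (hun : ∀ A ∈ O, ∀ B ∈ O, A ∪ B ∈ O) (u : G) {f g : G} {x : T}
    (h : x ∉ U F (f - g)) : D F u f x = D F u g x := by
  have key : ∀ f g : G, x ∉ U F (f - g) → D F u f x ⊆ D F u g x := by
    intro f g h p hp
    have e : p.2 • f - p.1 • u = (p.2 • g - p.1 • u) + p.2 • (f - g) := by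
      rw [smul_sub]; abel
    have hp' : P F (p.2 • f - p.1 • u) x := hp
    rw [e] at hp'
    rcases P_add F hun hp' with hc | hc
    · exact hc
    · exfalso
      apply h
      have h1 : x ∈ U F (p.2 • (f - g)) := mem_U_of_P F hc
      refine (U_subset_iff F _ _).mpr ⟨p.2.natAbs, ?_⟩ h1
      rcases Int.natAbs_eq p.2 with h2 | h2
      · conv_lhs => rw [h2, natCast_zsmul]
        rw [abs_le']
        constructor
        · exact nsmul_le_nsmul_left' (le_abs_self _) _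
        · rw [← smul_neg]; exact nsmul_le_nsmul_left' (neg_le_abs _) _
      · conv_lhs => rw [h2, neg_smul, natCast_zsmul, abs_neg]
        rw [abs_le']
        constructor
        · exact nsmul_le_nsmul_left' (le_abs_self _) _
        · rw [← smul_neg]; exact nsmul_le_nsmul_left' (neg_le_abs _) _
  apply Set.Subset.antisymm (key f g h)
  apply key g f
  rwa [← neg_sub, U_neg]

theorem not_mem_of_D_eq (hemp : ∅ ∈ O) (hun : ∀ A ∈ O, ∀ B ∈ O, A ∪ B ∈ O)
    (hin : ∀ A ∈ O, ∀ B ∈ O, A ∩ B ∈ O) {u : G} (hu : 0 ≤ u) (huu : U F u = univ)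
    {x : T} (hx : {x}ᶜ ∈ O) {f g : G} (hD : D F u f x = D F u g x) : x ∉ U F (f - g) := by
  have hPu : P F u x := by
    unfold P; rw [sup_eq_left.mpr hu, huu]; trivial
  have key : ∀ f g : G, D F u f x = D F u g x → ¬ P F (f - g) x := by
    intro f g hD hP
    obtain ⟨l, hl⟩ := P_arch F hemp hun hin hu hx hP
    -- Q m : l g < m u at x
    have hN : ∃ N : ℕ, |l • g| ≤ N • u := by
      have : U F (l • g) ⊆ U F u := by rw [huu]; exact subset_univ _
      rw [U_subset_iff] at this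
      rwa [abs_of_nonneg hu] at this
    obtain ⟨N, hN⟩ := hN
    have hQN : P F (((N : ℤ) + 1) • u - l • g) x := by
      have e : u = (((N : ℤ) + 1) • u - l • g) + (l • g - N • u) := by
        rw [add_smul, one_smul, natCast_zsmul]; abel
      have h1 := hPu
      rw [e] at h1
      rcases P_add F hun h1 with h1 | h1
      · exact h1
      · exfalso
        refine P_of_le_zero F hemp ?_ x h1
        rw [sub_nonpos]
        exact (le_abs_self _).trans hN
    have hQN' : ¬ P F ((-(N : ℤ)) • u - l • g) x := by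
      apply P_of_le_zero F hemp
      rw [neg_smul, natCast_zsmul, sub_nonpos]
      have := (neg_le_abs (l • g)).trans hN
      exact neg_le.mp this
    have hex : ∃ m : ℤ, ¬ P F (m • u - l • g) x ∧ P F ((m + 1) • u - l • g) x := by
      by_contra hcon
      push Not at hcon
      have : ∀ k : ℕ, ¬ P F ((-(N : ℤ) + k) • u - l • g) x := by
        intro k
        induction k with
        | zero => simpa using hQN'
        | succ k ih =>
          have := hcon _ ih
          rw [Nat.cast_add, Nat.cast_one, ← add_assoc]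
          exact this
      apply this (2 * N + 1)
      have e : (-(N : ℤ) + ((2 * N + 1 : ℕ) : ℤ)) = (N : ℤ) + 1 := by push_cast; ring
      rw [e]
      exact hQN
    obtain ⟨m, hm1, hm2⟩ := hex
    have h1 : ((m + 1, (l : ℤ)) : ℤ × ℤ) ∈ D F u f x := by
      have e : l • (f - g) - u = ((l : ℤ) • f - (m + 1) • u) + (m • u - l • g) := by
        rw [smul_sub, add_smul, one_smul, natCast_zsmul]; abel
      rw [e] at hl
      rcases P_add F hun hl with h1 | h1
      · exact h1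
      · exact absurd h1 hm1
    rw [hD] at h1
    have h2 : P F ((l : ℤ) • g - (m + 1) • u) x := h1
    refine P_not_both F hemp hin h2 ?_
    rw [neg_sub, natCast_zsmul]
    exact hm2
  intro hmem
  rcases P_or_of_mem_U F hun hmem with h | h
  · exact key f g hD h
  · rw [neg_sub] at h
    exact key g f hD.symm h

theorem D_closure (hemp : ∅ ∈ O) (hun : ∀ A ∈ O, ∀ B ∈ O, A ∪ B ∈ O)
    (hin : ∀ A ∈ O, ∀ B ∈ O, A ∩ B ∈ O) {u : G} (hu : 0 ≤ u) (huu : U F u = univ)
    (hT : ∀ x : T, {x}ᶜ ∈ O) (f : G) (K : Set T) (hK : ∀ y ∈ K, ∀ y' ∈ K, D F u f y = D F u f y')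
    (x : T) (hx : ∀ V ∈ O, x ∈ V → (V ∩ K).Nonempty) (y : T) (hy : y ∈ K) :
    D F u f x = D F u f y := by
  have hPu : P F u x := by
    unfold P; rw [sup_eq_left.mpr hu, huu]; trivial
  have h1 : D F u f x ⊆ D F u f y := by
    intro p hp
    obtain ⟨y', hy', hy'K⟩ := hx _ (U_mem F _) hp
    rw [hK y hy y' hy'K]
    exact hy'
  apply Set.Subset.antisymm h1
  intro p hp
  by_contra hcon
  have hp' : P F (p.2 • f - p.1 • u) y := hp
  obtain ⟨l, hl⟩ := P_arch F hemp hun hin hu (hT y) hp'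
  have h2 : P F (u - l • (p.2 • f - p.1 • u)) x := by
    have e : u = (u - l • (p.2 • f - p.1 • u)) + l • (p.2 • f - p.1 • u) := by abel
    have h3 := hPu
    rw [e] at h3
    rcases P_add F hun h3 with h3 | h3
    · exact h3
    · exact absurd (P_nsmul F hemp hun l h3) hcon
  have h3 : ((-(l * p.1 + 1), -(l * p.2)) : ℤ × ℤ) ∈ D F u f x := by
    have e : u - l • (p.2 • f - p.1 • u) = (-(l * p.2) : ℤ) • f - (-(l * p.1 + 1) : ℤ) • u := by
      rw [smul_sub, neg_smul, neg_smul, add_smul, one_smul, mul_smul, mul_smul,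
        natCast_zsmul, natCast_zsmul]
      abel
    rw [e] at h2
    exact h2
  have h4 : P F ((-(l * p.2) : ℤ) • f - (-(l * p.1 + 1) : ℤ) • u) y := h1 h3
  have e : (-(l * p.2) : ℤ) • f - (-(l * p.1 + 1) : ℤ) • u = -(l • (p.2 • f - p.1 • u) - u) := by
    rw [smul_sub, neg_smul, neg_smul, add_smul, one_smul, mul_smul, mul_smul,
        natCast_zsmul, natCast_zsmul]
    abel
  rw [e] at h4
  exact P_not_both F hemp hin hl h4

end Alg

end Pool.Agent.helper12
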