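import Mathlib

set_option autoImplicit false
set_option linter.unusedSectionVars false

open Set

namespace Pool.Agent.helper12

section

variable {X : Type} [LinearOrder X]

variable (X) in
/-- The lattice generated by the open rays. -/
def Og : Set (Set X) := {U : Set X | ∀ S : Set (Set X), ∅ ∈ S → Set.univ ∈ S →
            (∀ a : X, Set.Iio a ∈ S ∧ Set.Ioi a ∈ S) →
            (∀ A ∈ S, ∀ B ∈ S, A ∪ B ∈ S) →
            (∀ A ∈ S, ∀ B ∈ S, A ∩ B ∈ S) → U ∈ S}

theorem Og_empty : (∅ : Set X) ∈ Og X := fun _ h _ _ _ _ => h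
theorem Og_univ : (univ : Set X) ∈ Og X := fun _ _ h _ _ _ => h
theorem Og_Iio (a : X) : Iio a ∈ Og X := fun _ _ _ h _ _ => (h a).1
theorem Og_Ioi (a : X) : Ioi a ∈ Og X := fun _ _ _ h _ _ => (h a).2
theorem Og_union : ∀ A ∈ Og X, ∀ B ∈ Og X, A ∪ B ∈ Og X :=
  fun A hA B hB S h1 h2 h3 h4 h5 => h4 A (hA S h1 h2 h3 h4 h5) B (hB S h1 h2 h3 h4 h5)
theorem Og_inter : ∀ A ∈ Og X, ∀ B ∈ Og X, A ∩ B ∈ Og X :=
  fun A hA B hB S h1 h2 h3 h4 h5 => h5 A (hA S h1 h2 h3 h4 h5) B (hB S h1 h2 h3 h4 h5)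

theorem Og_compl_singleton (x : X) : ({x}ᶜ : Set X) ∈ Og X := by
  have : ({x}ᶜ : Set X) = Iio x ∪ Ioi x := by
    ext y; simp
  rw [this]
  exact Og_union _ (Og_Iio x) _ (Og_Ioi x)

theorem Og_open [NoMinOrder X] [NoMaxOrder X] {V : Set X} (hV : V ∈ Og X) :
    ∀ x ∈ V, ∃ l r, l < x ∧ x < r ∧ Ioo l r ⊆ V := by
  refine hV {V | ∀ x ∈ V, ∃ l r, l < x ∧ x < r ∧ Ioo l r ⊆ V} ?_ ?_ ?_ ?_ ?_
  · intro x hx; exact absurd hx (notMem_empty x)
  · intro x _
    obtain ⟨l, hl⟩ := exists_lt x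
    obtain ⟨r, hr⟩ := exists_gt x
    exact ⟨l, r, hl, hr, subset_univ _⟩
  · intro a
    constructor
    · intro x hx
      obtain ⟨l, hl⟩ := exists_lt x
      exact ⟨l, a, hl, hx, fun y hy => hy.2⟩
    · intro x hx
      obtain ⟨r, hr⟩ := exists_gt x
      exact ⟨a, r, hx, hr, fun y hy => hy.1⟩
  · rintro A hA B hB x (hx | hx)
    · obtain ⟨l, r, h1, h2, h3⟩ := hA x hx
      exact ⟨l, r, h1, h2, h3.trans subset_union_left⟩
    · obtain ⟨l, r, h1, h2, h3⟩ := hB x hx
      exact ⟨l, r, h1, h2, h3.trans subset_union_right⟩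
  · rintro A hA B hB x ⟨hxa, hxb⟩
    obtain ⟨l, r, h1, h2, h3⟩ := hA x hxa
    obtain ⟨l', r', h1', h2', h3'⟩ := hB x hxb
    refine ⟨max l l', min r r', max_lt h1 h1', lt_min h2 h2', fun y hy => ?_⟩
    rw [mem_Ioo, max_lt_iff, lt_min_iff] at hy
    exact ⟨h3 ⟨hy.1.1, hy.2.1⟩, h3' ⟨hy.1.2, hy.2.2⟩⟩

/-- `V` has finitely many boundary points `E`. -/
def FinBd (E : Finset X) (V : Set X) : Prop :=
  ∀ K : Set X, K.OrdConnected → (∀ e ∈ E, e ∉ K) → K ⊆ V ∨ K ∩ V = ∅

theorem FinBd_mono {E E' : Finset X} {V : Set X} (h : FinBd E V) (hE : E ⊆ E') : FinBd E' V :=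
  fun K hK he => h K hK (fun e hx => he e (hE hx))

theorem Og_fin {V : Set X} (hV : V ∈ Og X) : ∃ E : Finset X, FinBd E V := by
  classical
  refine hV {V | ∃ E : Finset X, FinBd E V} ?_ ?_ ?_ ?_ ?_
  · exact ⟨∅, fun K _ _ => Or.inr (inter_empty K)⟩
  · exact ⟨∅, fun K _ _ => Or.inl (subset_univ K)⟩
  · intro a
    have key : ∀ K : Set X, K.OrdConnected → a ∉ K → K ⊆ Iio a ∨ K ⊆ Ioi a := by
      intro K hK ha
      by_contra hcon
      push Not at hcon
      obtain ⟨h1, h2⟩ := hcon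
      rw [not_subset] at h1 h2
      obtain ⟨p, hp, hp'⟩ := h1
      obtain ⟨q, hq, hq'⟩ := h2
      rw [mem_Iio, not_lt] at hp'
      rw [mem_Ioi, not_lt] at hq'
      exact ha (hK.out hq hp ⟨hq', hp'⟩)
    constructor
    · refine ⟨{a}, fun K hK he => ?_⟩
      rcases key K hK (he a (Finset.mem_singleton_self a)) with h | h
      · exact Or.inl h
      · right
        ext y
        simp only [mem_inter_iff, mem_Iio, mem_empty_iff_false, iff_false, not_and, not_lt]
        intro hy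
        exact (h hy).le
    · refine ⟨{a}, fun K hK he => ?_⟩
      rcases key K hK (he a (Finset.mem_singleton_self a)) with h | h
      · right
        ext y
        simp only [mem_inter_iff, mem_Ioi, mem_empty_iff_false, iff_false, not_and, not_lt]
        intro hy
        exact (h hy).le
      · exact Or.inl h
  · rintro A ⟨E, hE⟩ B ⟨E', hE'⟩
    refine ⟨E ∪ E', fun K hK he => ?_⟩
    rcases hE K hK (fun e h => he e (Finset.mem_union_left _ h)) with h | h
    · exact Or.inl (h.trans subset_union_left)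
    · rcases hE' K hK (fun e h => he e (Finset.mem_union_right _ h)) with h' | h'
      · exact Or.inl (h'.trans subset_union_right)
      · right; rw [inter_union_distrib_left, h, h', union_empty]
  · rintro A ⟨E, hE⟩ B ⟨E', hE'⟩
    refine ⟨E ∪ E', fun K hK he => ?_⟩
    rcases hE K hK (fun e h => he e (Finset.mem_union_left _ h)) with h | h
    · rcases hE' K hK (fun e h => he e (Finset.mem_union_right _ h)) with h' | h'
      · exact Or.inl (subset_inter h h')
      · right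
        apply Set.eq_empty_of_subset_empty
        rw [← h']
        exact fun y hy => ⟨hy.1, hy.2.2⟩
    · right
      apply Set.eq_empty_of_subset_empty
      rw [← h]
      exact fun y hy => ⟨hy.1, hy.2.1⟩

theorem Og_biUnion {ι : Type} (s : Finset ι) (f : ι → Set X) (h : ∀ i ∈ s, f i ∈ Og X) :
    (⋃ i ∈ s, f i) ∈ Og X := by
  classical
  induction s using Finset.induction_on with
  | empty => simpa using Og_empty
  | insert a s _ ih =>
    rw [Finset.set_biUnion_insert]
    exact Og_union _ (h a (Finset.mem_insert_self a s)) _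
      (ih (fun i hi => h i (Finset.mem_insert_of_mem hi)))

theorem Og_biInter {ι : Type} (s : Finset ι) (f : ι → Set X) (h : ∀ i ∈ s, f i ∈ Og X) :
    (⋂ i ∈ s, f i) ∈ Og X := by
  classical
  induction s using Finset.induction_on with
  | empty => simpa using Og_univ
  | insert a s _ ih =>
    rw [Finset.set_biInter_insert]
    exact Og_inter _ (h a (Finset.mem_insert_self a s)) _
      (ih (fun i hi => h i (Finset.mem_insert_of_mem hi)))

/-- Countable based differences from first countability. -/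
theorem Og_cbd [NoMinOrder X] [NoMaxOrder X]
    (hr : ∀ x : X, ∃ s : ℕ → X, (∀ i, x < s i) ∧ ∀ y, x < y → ∃ i, s i < y)
    (hl : ∀ x : X, ∃ s : ℕ → X, (∀ i, s i < x) ∧ ∀ y, y < x → ∃ i, y < s i) :
    ∀ a ∈ Og X, ∀ b ∈ Og X, ∃ C : Set (Set X), C.Countable ∧
          (∀ c ∈ C, c ∈ Og X ∧ a ⊆ b ∪ c) ∧
          ∀ x ∈ Og X, a ⊆ b ∪ x → ∃ c ∈ C, c ⊆ x := by
  classical
  choose R hR1 hR2 using hr
  choose L hL1 hL2 using hl
  -- decreasing neighbourhoods
  let N : ℕ → X → Set X := fun k x => ⋂ i ∈ Finset.range (k + 1), (Ioi (L x i) ∩ Iio (R x i))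
  have hNO : ∀ k x, N k x ∈ Og X := fun k x =>
    Og_biInter _ _ (fun i _ => Og_inter _ (Og_Ioi _) _ (Og_Iio _))
  have hNmem : ∀ k x, x ∈ N k x := by
    intro k x
    simp only [N, mem_iInter]
    intro i _
    exact ⟨hL1 x i, hR1 x i⟩
  have hNanti : ∀ x, ∀ k k', k ≤ k' → N k' x ⊆ N k x := by
    intro x k k' hk y hy
    simp only [N, mem_iInter] at hy ⊢
    intro i hi
    apply hy i
    rw [Finset.mem_range] at hi ⊢
    omega
  have hNsmall : ∀ V ∈ Og X, ∀ x ∈ V, ∃ k, N k x ⊆ V := by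
    intro V hV x hx
    obtain ⟨l, r, h1, h2, h3⟩ := Og_open hV x hx
    obtain ⟨i, hi⟩ := hR2 x r h2
    obtain ⟨j, hj⟩ := hL2 x l h1
    refine ⟨max i j, fun y hy => h3 ?_⟩
    simp only [N, mem_iInter] at hy
    have h4 := hy i (Finset.mem_range.mpr (by omega))
    have h5 := hy j (Finset.mem_range.mpr (by omega))
    exact ⟨hj.trans h5.1, h4.2.trans hi⟩
  intro a ha b hb
  obtain ⟨Ea, hEa⟩ := Og_fin ha
  obtain ⟨Eb, hEb⟩ := Og_fin hb
  let E := Ea ∪ Eb
  have hEa' : FinBd E a := FinBd_mono hEa Finset.subset_union_left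
  have hEb' : FinBd E b := FinBd_mono hEb Finset.subset_union_right
  let cell : Finset X → Set X := fun S => (⋂ e ∈ S, Ioi e) ∩ (⋂ e ∈ E \ S, Iio e)
  have hcellO : ∀ S, cell S ∈ Og X := fun S =>
    Og_inter _ (Og_biInter _ _ (fun e _ => Og_Ioi e)) _ (Og_biInter _ _ (fun e _ => Og_Iio e))
  have hcell_oc : ∀ S, (cell S).OrdConnected := by
    intro S
    rw [ordConnected_iff]
    intro x hx y hy _ z hz
    simp only [cell, mem_inter_iff, mem_iInter, mem_Ioi, mem_Iio] at hx hy ⊢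
    exact ⟨fun e he => (hx.1 e he).trans_le hz.1, fun e he => hz.2.trans_lt (hy.2 e he)⟩
  have hcell_E : ∀ S, ∀ e ∈ E, e ∉ cell S := by
    intro S e he hmem
    simp only [cell, mem_inter_iff, mem_iInter, mem_Ioi, mem_Iio] at hmem
    by_cases h : e ∈ S
    · exact lt_irrefl _ (hmem.1 e h)
    · exact lt_irrefl _ (hmem.2 e (Finset.mem_sdiff.mpr ⟨he, h⟩))
  have hcell_mem : ∀ t, t ∉ E → t ∈ cell (E.filter (· < t)) := by
    intro t ht
    simp only [cell, mem_inter_iff, mem_iInter, mem_Ioi, mem_Iio]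
    refine ⟨fun e he => (Finset.mem_filter.mp he).2, fun e he => ?_⟩
    rw [Finset.mem_sdiff, Finset.mem_filter] at he
    have h1 : ¬ e < t := fun h => he.2 ⟨he.1, h⟩
    have h2 : e ≠ t := fun h => ht (h ▸ he.1)
    exact lt_of_le_of_ne (not_lt.mp h1) h2.symm
  let good : Finset (Finset X) := E.powerset.filter (fun S => cell S ⊆ a ∧ cell S ∩ b = ∅)
  let goodE : Finset X := E.filter (fun e => e ∈ a ∧ e ∉ b)
  let c : ℕ → Set X := fun k => (⋃ S ∈ good, cell S) ∪ (⋃ e ∈ goodE, N k e)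
  refine ⟨range c, countable_range c, ?_, ?_⟩
  · rintro _ ⟨k, rfl⟩
    refine ⟨Og_union _ (Og_biUnion _ _ (fun S _ => hcellO S)) _
      (Og_biUnion _ _ (fun e _ => hNO k e)), ?_⟩
    intro t ht
    by_cases htb : t ∈ b
    · exact Or.inl htb
    right
    by_cases htE : t ∈ E
    · right
      simp only [mem_iUnion]
      exact ⟨t, Finset.mem_filter.mpr ⟨htE, ht, htb⟩, hNmem k t⟩
    · left
      simp only [mem_iUnion]
      refine ⟨E.filter (· < t), Finset.mem_filter.mpr ⟨Finset.mem_powerset.mpr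
        (Finset.filter_subset _ _), ?_, ?_⟩, hcell_mem t htE⟩
      · rcases hEa' _ (hcell_oc _) (hcell_E (E.filter (· < t))) with h | h
        · exact h
        · exfalso
          have : t ∈ cell (E.filter (· < t)) ∩ a := ⟨hcell_mem t htE, ht⟩
          rw [h] at this
          exact this
      · rcases hEb' _ (hcell_oc _) (hcell_E (E.filter (· < t))) with h | h
        · exact absurd (h (hcell_mem t htE)) htb
        · exact h
  · intro x hx hax
    have hk : ∀ e ∈ goodE, ∃ k, N k e ⊆ x := by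
      intro e he
      obtain ⟨_, h1, h2⟩ := Finset.mem_filter.mp he
      apply hNsmall x hx e
      rcases hax h1 with h | h
      · exact absurd h h2
      · exact h
    have hk' : ∃ k, ∀ e ∈ goodE, N k e ⊆ x := by
      choose! f hf using hk
      refine ⟨goodE.sup f, fun e he => ?_⟩
      exact (hNanti e _ _ (Finset.le_sup he)).trans (hf e he)
    obtain ⟨k, hk⟩ := hk'
    refine ⟨c k, ⟨k, rfl⟩, ?_⟩
    rintro y (hy | hy)
    · simp only [mem_iUnion] at hy
      obtain ⟨S, hS, hyS⟩ := hy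
      obtain ⟨_, h1, h2⟩ := Finset.mem_filter.mp hS
      rcases hax (h1 hyS) with h | h
      · exfalso
        have : y ∈ cell S ∩ b := ⟨hyS, h⟩
        rw [h2] at this
        exact this
      · exact h
    · simp only [mem_iUnion] at hy
      obtain ⟨e, he, hye⟩ := hy
      exact hk e he hye

end

end Pool.Agent.helper12
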