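import Mathlib

set_option autoImplicit false
set_option linter.unusedSectionVars false

open Set Order

namespace Pool.Agent.helper12

/-! ### The well-order `W` -/

theorem exists_W : ∃ (W : Type) (_ : LinearOrder W) (_ : WellFoundedLT W), Nonempty W ∧
    ∀ (ι : Type) (g : ι → W), Cardinal.mk ι ≤ Cardinal.continuum → ∃ b : W, ∀ i, g i < b := by
  have hreg : (succ Cardinal.continuum.{0}).IsRegular :=
    Cardinal.isRegular_succ Cardinal.aleph0_le_continuum
  have hcof : Order.cof (succ Cardinal.continuum.{0}).ord.ToType = succ Cardinal.continuum.{0} := by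
    rw [Ordinal.cof_toType, hreg.cof_ord]
  refine ⟨(succ Cardinal.continuum.{0}).ord.ToType, inferInstance, inferInstance, ?_, ?_⟩
  · rw [← Order.cof_ne_zero_iff, hcof]
    exact hreg.ne_zero
  · intro ι g hι
    have h1 : ¬ IsCofinal (range g) := by
      intro h
      have h2 := Order.cof_le h
      rw [hcof] at h2
      have h3 : Cardinal.mk (range g) ≤ Cardinal.continuum := Cardinal.mk_range_le.trans hι
      exact absurd (h2.trans h3) (not_le.mpr (lt_succ _))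
    rw [not_isCofinal_iff] at h1
    obtain ⟨b, hb⟩ := h1
    exact ⟨b, fun i => hb _ ⟨i, rfl⟩⟩

variable {W : Type} [LinearOrder W] [WellFoundedLT W]

/-- Admissible sequences: even below some place `a`, odd at `a`, zero above `a`. -/
def Adm (x : W → ℤ) : Prop := ∃ a, (∀ b, b < a → Even (x b)) ∧ Odd (x a) ∧ ∀ b, a < b → x b = 0

variable (W) in
/-- The chain. -/
def T : Type := {x : Lex (W → ℤ) // Adm (fun a => x a)}

noncomputable instance : LinearOrder (T W) :=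
  inferInstanceAs (LinearOrder {x : Lex (W → ℤ) // Adm (fun a => x a)})

/-- The coordinates. -/
def T.c (x : T W) : W → ℤ := fun a => x.1 a

theorem T.adm (x : T W) : Adm x.c := x.2

theorem T.lt_iff (x y : T W) : x < y ↔ ∃ i, (∀ j, j < i → x.c j = y.c j) ∧ x.c i < y.c i := Iff.rfl

theorem T.ext {x y : T W} (h : ∀ a, x.c a = y.c a) : x = y := by
  apply Subtype.ext
  exact funext h

theorem T.lt_of (x y : T W) (i : W) (h : ∀ j, j < i → x.c j = y.c j) (h2 : x.c i < y.c i) : x < y :=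
  (T.lt_iff x y).mpr ⟨i, h, h2⟩

/-- An element from an admissible function. -/
def T.mk (x : W → ℤ) (h : Adm x) : T W := ⟨toLex x, h⟩

theorem T.mk_c (x : W → ℤ) (h : Adm x) : (T.mk x h).c = x := rfl

theorem T.odd_spec (x : T W) {b : W} (hb : Odd (x.c b)) :
    (∀ c, c < b → Even (x.c c)) ∧ ∀ c, b < c → x.c c = 0 := by
  obtain ⟨a, h1, h2, h3⟩ := x.adm
  rcases lt_trichotomy a b with h | h | h
  · have := h3 b h
    rw [this] at hb
    exact absurd hb (by decide)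
  · subst h; exact ⟨h1, h3⟩
  · have := h1 b h
    exact absurd hb (Int.not_odd_iff_even.mpr this)

/-- The node with even labels `2 * w` below `b`. -/
def Nd (w : W → ℤ) (b : W) : Set (T W) := {x | ∀ g, g < b → x.c g = 2 * w g}

/-- The point that is `2 * w` below `b`, `k` at `b`. -/
noncomputable def ptf (w : W → ℤ) (b : W) (k : ℤ) : W → ℤ :=
  fun g => if g < b then 2 * w g else if g = b then k else 0

theorem ptf_lt (w : W → ℤ) (b : W) (k : ℤ) {g : W} (h : g < b) : ptf w b k g = 2 * w g := by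
  simp [ptf, h]

theorem ptf_eq (w : W → ℤ) (b : W) (k : ℤ) : ptf w b k b = k := by
  simp [ptf]

theorem ptf_gt (w : W → ℤ) (b : W) (k : ℤ) {g : W} (h : b < g) : ptf w b k g = 0 := by
  simp [ptf, not_lt.mpr h.le, h.ne']

theorem ptf_adm (w : W → ℤ) (b : W) {k : ℤ} (hk : Odd k) : Adm (ptf w b k) := by
  refine ⟨b, fun g hg => ?_, ?_, fun g hg => ptf_gt w b k hg⟩
  · rw [ptf_lt w b k hg]; exact even_two_mul _
  · rw [ptf_eq]; exact hk

/-- The point as an element of the chain. -/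
noncomputable def pt (w : W → ℤ) (b : W) (k : ℤ) (hk : Odd k) : T W :=
  T.mk (ptf w b k) (ptf_adm w b hk)

theorem pt_c (w : W → ℤ) (b : W) (k : ℤ) (hk : Odd k) : (pt w b k hk).c = ptf w b k := rfl

theorem pt_mem (w : W → ℤ) (b : W) (k : ℤ) (hk : Odd k) : pt w b k hk ∈ Nd w b := by
  intro g hg
  rw [pt_c, ptf_lt w b k hg]

theorem eq_pt {x : T W} {w : W → ℤ} {b : W} (hx : x ∈ Nd w b) (hk : Odd (x.c b)) :
    x = pt w b (x.c b) hk := by
  apply T.ext
  intro a
  rw [pt_c]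
  rcases lt_trichotomy a b with h | h | h
  · rw [ptf_lt _ _ _ h, hx a h]
  · subst h; rw [ptf_eq]
  · rw [ptf_gt _ _ _ h, (x.odd_spec hk).2 a h]

theorem Nd_anti (w : W → ℤ) {b b' : W} (h : b ≤ b') : Nd w b' ⊆ Nd w b :=
  fun _ hx g hg => hx g (hg.trans_le h)

theorem Nd_congr {w w' : W → ℤ} {b : W} (h : ∀ g, g < b → w g = w' g) : Nd w b = Nd w' b := by
  ext x
  constructor
  · intro hx g hg; rw [← h g hg]; exact hx g hg
  · intro hx g hg; rw [h g hg]; exact hx g hg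

theorem Nd_no_min (w : W → ℤ) (b : W) {x : T W} (hx : x ∈ Nd w b) : ∃ y ∈ Nd w b, y < x := by
  have hk : Odd (2 * (x.c b / 2) - 1) := ⟨x.c b / 2 - 1, by ring⟩
  refine ⟨pt w b _ hk, pt_mem w b _ hk, T.lt_of _ _ b ?_ ?_⟩
  · intro j hj
    rw [pt_c, ptf_lt _ _ _ hj, hx j hj]
  · rw [pt_c, ptf_eq]; omega

theorem Nd_no_max (w : W → ℤ) (b : W) {x : T W} (hx : x ∈ Nd w b) : ∃ y ∈ Nd w b, x < y := by
  have hk : Odd (2 * (x.c b / 2) + 3) := ⟨x.c b / 2 + 1, by ring⟩
  refine ⟨pt w b _ hk, pt_mem w b _ hk, T.lt_of _ _ b ?_ ?_⟩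
  · intro j hj
    rw [pt_c, ptf_lt _ _ _ hj, hx j hj]
  · rw [pt_c, ptf_eq]; omega

theorem Nd_nonempty (w : W → ℤ) (b : W) : (Nd w b).Nonempty :=
  ⟨_, pt_mem w b 1 (by decide)⟩

/-- If `x < y`, `x` in the node and `y` not, then everything in the node is below `y`. -/
theorem Nd_lt {w : W → ℤ} {b : W} {x y z : T W} (hx : x ∈ Nd w b) (hy : y ∉ Nd w b)
    (hz : z ∈ Nd w b) (h : x < y) : z < y := by
  obtain ⟨i, h1, h2⟩ := (T.lt_iff x y).mp h
  have hi : i < b := by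
    by_contra hcon
    apply hy
    intro g hg
    rw [← h1 g (hg.trans_le (not_lt.mp hcon))]
    exact hx g hg
  refine T.lt_of _ _ i ?_ ?_
  · intro j hj
    rw [← h1 j hj, hx j (hj.trans hi), hz j (hj.trans hi)]
  · rw [hz i hi, ← hx i hi]; exact h2

theorem Nd_gt {w : W → ℤ} {b : W} {x y z : T W} (hx : x ∈ Nd w b) (hy : y ∉ Nd w b)
    (hz : z ∈ Nd w b) (h : y < x) : y < z := by
  obtain ⟨i, h1, h2⟩ := (T.lt_iff y x).mp h
  have hi : i < b := by
    by_contra hcon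
    apply hy
    intro g hg
    rw [h1 g (hg.trans_le (not_lt.mp hcon))]
    exact hx g hg
  refine T.lt_of _ _ i ?_ ?_
  · intro j hj
    rw [h1 j hj, hx j (hj.trans hi), hz j (hj.trans hi)]
  · rw [hz i hi, ← hx i hi]; exact h2

theorem Nd_ordConnected (w : W → ℤ) (b : W) : (Nd w b).OrdConnected := by
  rw [ordConnected_iff]
  intro x hx y hy _ z hz
  by_contra hzn
  have h1 : x < z := lt_of_le_of_ne hz.1 (fun h => hzn (h ▸ hx))
  have h2 : y < z := Nd_lt hx hzn hy h1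
  exact absurd hz.2 (not_le.mpr h2)

variable [SuccOrder W] [NoMaxOrder W]

theorem exists_not_mem_Nd (x : T W) (w : W → ℤ) : ∃ b : W, x ∉ Nd w b := by
  obtain ⟨a, h1, h2, h3⟩ := x.adm
  refine ⟨succ a, fun h => ?_⟩
  have := h a (lt_succ a)
  rw [this] at h2
  exact absurd h2 (Int.not_odd_iff_even.mpr (even_two_mul _))

theorem mem_Nd_succ {w : W → ℤ} {b : W} {x : T W} :
    x ∈ Nd w (succ b) ↔ x ∈ Nd w b ∧ x.c b = 2 * w b := by
  constructor
  · intro h
    exact ⟨Nd_anti w (le_succ b) h, h b (lt_succ b)⟩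
  · rintro ⟨h1, h2⟩ g hg
    rcases (lt_succ_iff.mp hg).lt_or_eq with h | h
    · exact h1 g h
    · rw [h]; exact h2

theorem mem_Nd_iff {w : W → ℤ} {b : W} {x : T W} :
    x ∈ Nd w b ↔ ∀ g, g < b → x ∈ Nd w (succ g) := by
  constructor
  · intro h g hg
    exact Nd_anti w (succ_le_of_lt hg) h
  · intro h g hg
    exact h g hg g (lt_succ g)

/-- slice of the node at value `k`. -/
def Sl (w : W → ℤ) (b : W) (k : ℤ) : Set (T W) := {x | x ∈ Nd w b ∧ x.c b = k}

open Classical in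
theorem Sl_even (w : W → ℤ) (b : W) (n : ℤ) :
    Sl w b (2 * n) = Nd (Function.update w b n) (succ b) := by
  ext x
  rw [mem_Nd_succ]
  have : Nd (Function.update w b n) b = Nd w b := by
    apply Nd_congr
    intro g hg
    rw [Function.update_of_ne hg.ne]
  rw [this, Function.update_self]
  rfl

theorem Sl_odd (w : W → ℤ) (b : W) (k : ℤ) (hk : Odd k) :
    Sl w b k = {pt w b k hk} := by
  ext x
  constructor
  · rintro ⟨h1, h2⟩
    subst h2
    exact eq_pt h1 hk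
  · intro h
    rw [mem_singleton_iff] at h
    subst h
    exact ⟨pt_mem w b k hk, by rw [pt_c, ptf_eq]⟩

theorem Sl_nonempty (w : W → ℤ) (b : W) (k : ℤ) : (Sl w b k).Nonempty := by
  rcases Int.even_or_odd' k with ⟨n, h | h⟩
  · rw [h, Sl_even]; exact Nd_nonempty _ _
  · rw [Sl_odd w b k ⟨n, h⟩]; exact singleton_nonempty _

/-- right neighbourhoods of a point meet the next slice -/
theorem right_nbhd (w : W → ℤ) (b : W) (k : ℤ) (hk : Odd k) (r : T W) (hr : pt w b k hk < r) :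
    ∃ y ∈ Sl w b (k + 1), pt w b k hk < y ∧ y < r := by
  obtain ⟨n, hn⟩ := id hk
  have hn' : k + 1 = 2 * (n + 1) := by rw [hn]; ring
  rw [hn', Sl_even]
  have hlt : ∀ y ∈ Sl w b (k + 1), pt w b k hk < y := by
    rintro y ⟨h1, h2⟩
    refine T.lt_of _ _ b ?_ ?_
    · intro j hj
      rw [pt_c, ptf_lt _ _ _ hj, h1 j hj]
    · rw [pt_c, ptf_eq, h2]; omega
  rw [hn', Sl_even] at hlt
  by_cases hmem : r ∈ Nd (Function.update w b (n + 1)) (succ b)
  · obtain ⟨y, hy1, hy2⟩ := Nd_no_min _ _ hmem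
    exact ⟨y, hy1, hlt y hy1, hy2⟩
  · obtain ⟨y, hy⟩ := Nd_nonempty (Function.update w b (n + 1)) (succ b)
    refine ⟨y, hy, hlt y hy, ?_⟩
    obtain ⟨i, h1, h2⟩ := (T.lt_iff _ _).mp hr
    rw [← Sl_even] at hy hmem
    obtain ⟨hy1, hy2⟩ := hy
    rw [pt_c] at h1 h2
    rcases lt_trichotomy i b with h | h | h
    · refine T.lt_of _ _ i ?_ ?_
      · intro j hj
        rw [← h1 j hj, hy1 j (hj.trans h), ptf_lt _ _ _ (hj.trans h)]
      · rw [hy1 i h, ← ptf_lt w b k h]; exact h2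
    · subst h
      rw [ptf_eq] at h2
      refine T.lt_of _ _ i ?_ ?_
      · intro j hj
        rw [← h1 j hj, hy1 j hj, ptf_lt _ _ _ hj]
      · rw [hy2]
        have hne : r.c i ≠ k + 1 := by
          intro hcon
          apply hmem
          rw [← hn']
          refine ⟨fun g hg => ?_, hcon⟩
          rw [← h1 g hg, ptf_lt _ _ _ hg]
        omega
    · exfalso
      rw [ptf_gt _ _ _ h] at h2
      have h3 := h1 b h
      rw [ptf_eq] at h3
      have h4 := (r.odd_spec (b := b) (h3 ▸ ⟨n, hn⟩)).2 i h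
      rw [h4] at h2
      exact lt_irrefl _ h2

/-- left neighbourhoods of a point meet the previous slice -/
theorem left_nbhd (w : W → ℤ) (b : W) (k : ℤ) (hk : Odd k) (r : T W) (hr : r < pt w b k hk) :
    ∃ y ∈ Sl w b (k - 1), y < pt w b k hk ∧ r < y := by
  obtain ⟨n, hn⟩ := id hk
  have hn' : k - 1 = 2 * n := by rw [hn]; ring
  rw [hn', Sl_even]
  have hlt : ∀ y ∈ Sl w b (k - 1), y < pt w b k hk := by
    rintro y ⟨h1, h2⟩
    refine T.lt_of _ _ b ?_ ?_
    · intro j hj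
      rw [pt_c, ptf_lt _ _ _ hj, h1 j hj]
    · rw [pt_c, ptf_eq, h2]; omega
  rw [hn', Sl_even] at hlt
  by_cases hmem : r ∈ Nd (Function.update w b n) (succ b)
  · obtain ⟨y, hy1, hy2⟩ := Nd_no_max _ _ hmem
    exact ⟨y, hy1, hlt y hy1, hy2⟩
  · obtain ⟨y, hy⟩ := Nd_nonempty (Function.update w b n) (succ b)
    refine ⟨y, hy, hlt y hy, ?_⟩
    obtain ⟨i, h1, h2⟩ := (T.lt_iff _ _).mp hr
    rw [← Sl_even] at hy hmem
    obtain ⟨hy1, hy2⟩ := hy
    rw [pt_c] at h1 h2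
    rcases lt_trichotomy i b with h | h | h
    · refine T.lt_of _ _ i ?_ ?_
      · intro j hj
        rw [h1 j hj, hy1 j (hj.trans h), ptf_lt _ _ _ (hj.trans h)]
      · rw [hy1 i h, ← ptf_lt w b k h]; exact h2
    · subst h
      rw [ptf_eq] at h2
      refine T.lt_of _ _ i ?_ ?_
      · intro j hj
        rw [h1 j hj, hy1 j hj, ptf_lt _ _ _ hj]
      · rw [hy2]
        have hne : r.c i ≠ k - 1 := by
          intro hcon
          apply hmem
          rw [← hn']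
          refine ⟨fun g hg => ?_, hcon⟩
          rw [h1 g hg, ptf_lt _ _ _ hg]
        omega
    · exfalso
      rw [ptf_gt _ _ _ h] at h2
      have h3 := h1 b h
      rw [ptf_eq] at h3
      have h4 := (r.odd_spec (b := b) (h3.symm ▸ ⟨n, hn⟩)).2 i h
      rw [h4] at h2
      exact lt_irrefl _ h2

theorem exists_pt (x : T W) : ∃ (w : W → ℤ) (b : W) (k : ℤ) (hk : Odd k), x = pt w b k hk := by
  obtain ⟨a, h1, h2, h3⟩ := x.adm
  refine ⟨fun g => x.c g / 2, a, x.c a, h2, ?_⟩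
  apply eq_pt
  intro g hg
  obtain ⟨m, hm⟩ := h1 g hg
  change x.c g = 2 * (x.c g / 2)
  rw [hm]; omega

/-- Each node has countable coinitiality. -/
theorem Nd_coinit (w : W → ℤ) (b : W) : ∃ s : ℕ → T W, ∀ x ∈ Nd w b, ∃ i, s i ∈ Nd w b ∧ s i < x := by
  have ho : ∀ i : ℕ, Odd (-(2 * (i : ℤ) + 1)) := fun i => ⟨-(i : ℤ) - 1, by ring⟩
  refine ⟨fun i => pt w b (-(2 * i + 1)) (ho i), fun x hx => ?_⟩
  refine ⟨(x.c b).natAbs, pt_mem _ _ _ _, T.lt_of _ _ b ?_ ?_⟩
  · intro j hj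
    rw [pt_c, ptf_lt _ _ _ hj, hx j hj]
  · rw [pt_c, ptf_eq]; omega

theorem Nd_cofin (w : W → ℤ) (b : W) : ∃ s : ℕ → T W, ∀ x ∈ Nd w b, ∃ i, s i ∈ Nd w b ∧ x < s i := by
  have ho : ∀ i : ℕ, Odd (2 * (i : ℤ) + 1) := fun i => ⟨(i : ℤ), by ring⟩
  refine ⟨fun i => pt w b (2 * i + 1) (ho i), fun x hx => ?_⟩
  refine ⟨(x.c b).natAbs, pt_mem _ _ _ _, T.lt_of _ _ b ?_ ?_⟩
  · intro j hj
    rw [pt_c, ptf_lt _ _ _ hj, hx j hj]
  · rw [pt_c, ptf_eq]; omega

theorem right_seq (x : T W) : ∃ s : ℕ → T W, (∀ i, x < s i) ∧ ∀ y, x < y → ∃ i, s i < y := by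
  obtain ⟨w, b, k, hk, rfl⟩ := exists_pt x
  obtain ⟨n, hn⟩ := id hk
  have hn' : k + 1 = 2 * (n + 1) := by rw [hn]; ring
  obtain ⟨s, hs⟩ := Nd_coinit (Function.update w b (n + 1)) (succ b)
  obtain ⟨y0, hy01, hy02⟩ := Nd_no_max w b (pt_mem w b k hk)
  obtain ⟨t, _, ht, _⟩ := right_nbhd w b k hk y0 hy02
  classical
  refine ⟨fun i => if pt w b k hk < s i then s i else t, fun i => ?_, fun y hy => ?_⟩
  · dsimp only
    split_ifs with h
    · exact h
    · exact ht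
  · obtain ⟨z, hz1, hz2, hz3⟩ := right_nbhd w b k hk y hy
    rw [hn', Sl_even] at hz1
    obtain ⟨i, hi1, hi2⟩ := hs z hz1
    refine ⟨i, ?_⟩
    have : pt w b k hk < s i := by
      rw [← Sl_even, ← hn'] at hi1
      refine T.lt_of _ _ b ?_ ?_
      · intro j hj
        rw [pt_c, ptf_lt _ _ _ hj, hi1.1 j hj]
      · rw [pt_c, ptf_eq, hi1.2]; omega
    dsimp only
    rw [if_pos this]
    exact hi2.trans hz3

theorem left_seq (x : T W) : ∃ s : ℕ → T W, (∀ i, s i < x) ∧ ∀ y, y < x → ∃ i, y < s i := by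
  obtain ⟨w, b, k, hk, rfl⟩ := exists_pt x
  obtain ⟨n, hn⟩ := id hk
  have hn' : k - 1 = 2 * n := by rw [hn]; ring
  obtain ⟨s, hs⟩ := Nd_cofin (Function.update w b n) (succ b)
  obtain ⟨y0, hy01, hy02⟩ := Nd_no_min w b (pt_mem w b k hk)
  obtain ⟨t, _, ht, _⟩ := left_nbhd w b k hk y0 hy02
  classical
  refine ⟨fun i => if s i < pt w b k hk then s i else t, fun i => ?_, fun y hy => ?_⟩
  · dsimp only
    split_ifs with h
    · exact h
    · exact ht
  · obtain ⟨z, hz1, hz2, hz3⟩ := left_nbhd w b k hk y hy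
    rw [hn', Sl_even] at hz1
    obtain ⟨i, hi1, hi2⟩ := hs z hz1
    refine ⟨i, ?_⟩
    have : s i < pt w b k hk := by
      rw [← Sl_even, ← hn'] at hi1
      refine T.lt_of _ _ b ?_ ?_
      · intro j hj
        rw [pt_c, ptf_lt _ _ _ hj, hi1.1 j hj]
      · rw [pt_c, ptf_eq, hi1.2]; omega
    dsimp only
    rw [if_pos this]
    exact hz3.trans hi2

end Pool.Agent.helper12
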