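import Mathlib
import Pool.Agent.helper12.ChainAlg
import Pool.Agent.helper12.ChainOrd
import Pool.Agent.helper12.ChainO

set_option autoImplicit false
set_option linter.unusedSectionVars false

open Set Order

namespace Pool.Agent.helper12

variable {W : Type} [LinearOrder W] [WellFoundedLT W] [SuccOrder W] [NoMaxOrder W]
variable {G : Type} [AddCommGroup G] [Lattice G] [IsOrderedAddMonoid G]

instance T.noMin [Nonempty W] : NoMinOrder (T W) := by
  constructor
  intro x
  obtain ⟨w, b, k, hk, rfl⟩ := exists_pt x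
  obtain ⟨y, _, hy⟩ := Nd_no_min w b (pt_mem w b k hk)
  exact ⟨y, hy⟩

instance T.noMax [Nonempty W] : NoMaxOrder (T W) := by
  constructor
  intro x
  obtain ⟨w, b, k, hk, rfl⟩ := exists_pt x
  obtain ⟨y, _, hy⟩ := Nd_no_max w b (pt_mem w b k hk)
  exact ⟨y, hy⟩

variable (F : Og (T W) ≃o {I : Set G // ∃ a : G, I = {x : G | ∃ n : ℕ, |x| ≤ n • |a|}})

/-- `f` is constant on `K`. -/
def Cst (u f : G) (K : Set (T W)) : Prop := ∀ x ∈ K, ∀ y ∈ K, D F u f x = D F u f y

theorem Cst_mono {u f : G} {K K' : Set (T W)} (h : Cst F u f K) (hK : K' ⊆ K) : Cst F u f K' :=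
  fun x hx y hy => h x (hK hx) y (hK hy)

theorem start {u : G} (hu : 0 ≤ u) (w : W → ℤ) (b : W) :
    ∃ f : G, ¬ Cst F u f (Nd w b) := by
  obtain ⟨x, hx⟩ := Nd_nonempty w b
  obtain ⟨y, hy, hxy⟩ := Nd_no_max w b hx
  obtain ⟨f, hf⟩ := U_surj F _ (Og_Ioi x)
  refine ⟨|f|, fun hc => ?_⟩
  have h1 := hc x hx y hy
  have hPy : P F |f| y := by
    unfold P
    rw [sup_eq_left.mpr (abs_nonneg f), U_abs, hf]
    exact hxy
  obtain ⟨l, hl⟩ := P_arch F Og_empty Og_union Og_inter hu (Og_compl_singleton y) hPy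
  have h2 : ((1, (l : ℤ)) : ℤ × ℤ) ∈ D F u |f| y := by
    change P F ((l : ℤ) • |f| - (1 : ℤ) • u) y
    rw [one_smul, natCast_zsmul]; exact hl
  rw [← h1] at h2
  have h3 : P F ((l : ℤ) • |f| - (1 : ℤ) • u) x := h2
  rw [one_smul, natCast_zsmul] at h3
  have h4 : (l • |f| - u) ⊔ 0 ≤ l • |f| := by
    apply sup_le
    · exact sub_le_self _ hu
    · exact nsmul_nonneg (abs_nonneg f) l
  have h5 := U_mono F le_sup_right h4 h3
  have h6 : U F (l • |f|) ⊆ U F f := by
    rw [U_subset_iff]
    exact ⟨l, by rw [abs_of_nonneg (nsmul_nonneg (abs_nonneg f) l)]⟩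
  have h7 := h6 h5
  rw [hf] at h7
  exact lt_irrefl x h7

open Classical in
theorem child [Nonempty W] {u : G} (hu : 0 ≤ u) (huu : U F u = univ) (w : W → ℤ) (b : W) (f : G)
    (h : ¬ Cst F u f (Nd w b)) : ∃ n : ℤ, ¬ Cst F u f (Nd (Function.update w b n) (succ b)) := by
  by_contra hcon
  push Not at hcon
  apply h
  -- all slices are constant
  have hsl : ∀ k : ℤ, Cst F u f (Sl w b k) := by
    intro k
    rcases Int.even_or_odd' k with ⟨n, hn | hn⟩
    · rw [hn, Sl_even]; exact hcon n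
    · rw [Sl_odd w b k ⟨n, hn⟩]
      intro x hx y hy
      rw [mem_singleton_iff] at hx hy
      rw [hx, hy]
  have hadj : ∀ k : ℤ, ∀ x ∈ Sl w b k, ∀ y ∈ Sl w b (k + 1), D F u f x = D F u f y := by
    intro k x hx y hy
    rcases Int.even_or_odd k with hk | hk
    · -- k + 1 odd
      have hk1 : Odd (k + 1) := hk.add_one
      rw [Sl_odd w b (k + 1) hk1, mem_singleton_iff] at hy
      rw [hy]
      refine (D_closure F Og_empty Og_union Og_inter hu huu Og_compl_singleton f (Sl w b k)
        (hsl k) _ ?_ x hx).symm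
      intro V hV hmem
      obtain ⟨l, r, h1, h2, h3⟩ := Og_open hV _ hmem
      obtain ⟨t, ht1, ht2, ht3⟩ := left_nbhd w b (k + 1) hk1 l h1
      rw [add_sub_cancel_right] at ht1
      exact ⟨t, h3 ⟨ht3, ht2.trans h2⟩, ht1⟩
    · rw [Sl_odd w b k hk, mem_singleton_iff] at hx
      rw [hx]
      refine D_closure F Og_empty Og_union Og_inter hu huu Og_compl_singleton f (Sl w b (k + 1))
        (hsl (k + 1)) _ ?_ y hy
      intro V hV hmem
      obtain ⟨l, r, h1, h2, h3⟩ := Og_open hV _ hmem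
      obtain ⟨t, ht1, ht2, ht3⟩ := right_nbhd w b k hk r h2
      exact ⟨t, h3 ⟨h1.trans ht2, ht3⟩, ht1⟩
  have hall : ∀ n : ℕ, ∀ k : ℤ, ∀ x ∈ Sl w b k, ∀ y ∈ Sl w b (k + n), D F u f x = D F u f y := by
    intro n
    induction n with
    | zero =>
      intro k x hx y hy
      rw [Nat.cast_zero, add_zero] at hy
      exact hsl k x hx y hy
    | succ n ih =>
      intro k x hx y hy
      obtain ⟨t, ht⟩ := Sl_nonempty w b (k + n)
      rw [ih k x hx t ht]
      apply hadj (k + n) t ht
      rwa [Nat.cast_add, Nat.cast_one, ← add_assoc] at hy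
  intro x hx y hy
  rcases le_total (x.c b) (y.c b) with hle | hle
  · apply hall (y.c b - x.c b).toNat (x.c b) x ⟨hx, rfl⟩ y
    refine ⟨hy, ?_⟩
    rw [Int.toNat_of_nonneg (by omega)]; ring
  · symm
    apply hall (x.c b - y.c b).toNat (y.c b) y ⟨hy, rfl⟩ x
    refine ⟨hx, ?_⟩
    rw [Int.toNat_of_nonneg (by omega)]; ring

theorem limit_lemma {w : W → ℤ} {b0 l : W} (hb : b0 < l) {V : Set (T W)} (hV : V ∈ Og (T W))
    (h : V ∩ Nd w l = ∅) : ∃ b, b0 ≤ b ∧ b < l ∧ V ∩ Nd w (succ b) = ∅ := by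
  classical
  obtain ⟨E, hE⟩ := Og_fin hV
  have h1 : ∃ b, b0 ≤ b ∧ b < l ∧ ∀ e ∈ E, e ∉ Nd w l → e ∉ Nd w (succ b) := by
    clear hE
    induction E using Finset.induction_on with
    | empty => exact ⟨b0, le_rfl, hb, fun e he => absurd he (Finset.notMem_empty e)⟩
    | insert a s _ ih =>
      obtain ⟨b, hb1, hb2, hb3⟩ := ih
      by_cases ha : a ∈ Nd w l
      · refine ⟨b, hb1, hb2, fun e he hel => ?_⟩
        rcases Finset.mem_insert.mp he with h' | h'
        · exact absurd (h' ▸ ha) hel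
        · exact hb3 e h' hel
      · rw [mem_Nd_iff] at ha
        push Not at ha
        obtain ⟨g, hg1, hg2⟩ := ha
        refine ⟨max b g, hb1.trans (le_max_left _ _), max_lt hb2 hg1, fun e he hel => ?_⟩
        rcases Finset.mem_insert.mp he with h' | h'
        · rw [h']
          exact fun hmem => hg2 (Nd_anti w (succ_le_succ (le_max_right b g)) hmem)
        · exact fun hmem => hb3 e h' hel (Nd_anti w (succ_le_succ (le_max_left b g)) hmem)
  obtain ⟨b, hb1, hb2, hb3⟩ := h1
  refine ⟨b, hb1, hb2, ?_⟩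
  by_contra hne
  obtain ⟨y, hyV, hyN⟩ := nonempty_iff_ne_empty.mpr hne
  have hyl : y ∉ Nd w l := by
    intro hc
    have : y ∈ V ∩ Nd w l := ⟨hyV, hc⟩
    rw [h] at this
    exact this
  obtain ⟨x0, hx0⟩ := Nd_nonempty w l
  have hsub : Nd w l ⊆ Nd w (succ b) := Nd_anti w (succ_le_of_lt hb2)
  -- find s in Nd w l beyond E on y's side
  rcases lt_trichotomy y x0 with hlt | heq | hgt
  · -- y below
    have hbelow : ∀ z ∈ Nd w l, y < z := fun z hz => Nd_gt hx0 hyl hz hlt
    have : ∃ s ∈ Nd w l, ∀ e ∈ E, e ∈ Nd w l → s < e := by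
      clear hE hb3
      induction E using Finset.induction_on with
      | empty => exact ⟨x0, hx0, fun e he => absurd he (Finset.notMem_empty e)⟩
      | insert a s _ ih =>
        obtain ⟨t, ht1, ht2⟩ := ih
        by_cases ha : a ∈ Nd w l
        · have hm : min t a ∈ Nd w l := by
            rcases min_choice t a with h' | h' <;> rw [h'] <;> assumption
          obtain ⟨t', ht', ht''⟩ := Nd_no_min w l hm
          refine ⟨t', ht', fun e he hel => ?_⟩
          rcases Finset.mem_insert.mp he with h' | h'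
          · rw [h']; exact ht''.trans_le (min_le_right _ _)
          · exact (ht''.trans_le (min_le_left _ _)).trans (ht2 e h' hel)
        · refine ⟨t, ht1, fun e he hel => ?_⟩
          rcases Finset.mem_insert.mp he with h' | h'
          · exact absurd (h' ▸ hel) ha
          · exact ht2 e h' hel
    obtain ⟨s, hs1, hs2⟩ := this
    have hK := hE (Icc y s) ordConnected_Icc (by
      intro e he hmem
      have heN : e ∈ Nd w (succ b) := (Nd_ordConnected w (succ b)).out hyN (hsub hs1) hmem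
      have hel : e ∈ Nd w l := by
        by_contra hc
        exact hb3 e he hc heN
      exact absurd hmem.2 (not_le.mpr (hs2 e he hel)))
    rcases hK with hK | hK
    · have h1 : s ∈ V ∩ Nd w l := ⟨hK ⟨(hbelow s hs1).le, le_rfl⟩, hs1⟩
      rw [h] at h1
      exact h1
    · have h1 : y ∈ Icc y s ∩ V := ⟨⟨le_rfl, (hbelow s hs1).le⟩, hyV⟩
      rw [hK] at h1
      exact h1
  · exact hyl (heq ▸ hx0)
  · have hbelow : ∀ z ∈ Nd w l, z < y := fun z hz => Nd_lt hx0 hyl hz hgt
    have : ∃ s ∈ Nd w l, ∀ e ∈ E, e ∈ Nd w l → e < s := by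
      clear hE hb3
      induction E using Finset.induction_on with
      | empty => exact ⟨x0, hx0, fun e he => absurd he (Finset.notMem_empty e)⟩
      | insert a s _ ih =>
        obtain ⟨t, ht1, ht2⟩ := ih
        by_cases ha : a ∈ Nd w l
        · have hm : max t a ∈ Nd w l := by
            rcases max_choice t a with h' | h' <;> rw [h'] <;> assumption
          obtain ⟨t', ht', ht''⟩ := Nd_no_max w l hm
          refine ⟨t', ht', fun e he hel => ?_⟩
          rcases Finset.mem_insert.mp he with h' | h'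
          · rw [h']; exact (le_max_right _ _).trans_lt ht''
          · exact (ht2 e h' hel).trans ((le_max_left _ _).trans_lt ht'')
        · refine ⟨t, ht1, fun e he hel => ?_⟩
          rcases Finset.mem_insert.mp he with h' | h'
          · exact absurd (h' ▸ hel) ha
          · exact ht2 e h' hel
    obtain ⟨s, hs1, hs2⟩ := this
    have hK := hE (Icc s y) ordConnected_Icc (by
      intro e he hmem
      have heN : e ∈ Nd w (succ b) := (Nd_ordConnected w (succ b)).out (hsub hs1) hyN hmem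
      have hel : e ∈ Nd w l := by
        by_contra hc
        exact hb3 e he hc heN
      exact absurd hmem.1 (not_le.mpr (hs2 e he hel)))
    rcases hK with hK | hK
    · have h1 : s ∈ V ∩ Nd w l := ⟨hK ⟨le_rfl, (hbelow s hs1).le⟩, hs1⟩
      rw [h] at h1
      exact h1
    · have h1 : y ∈ Icc s y ∩ V := ⟨⟨(hbelow s hs1).le, le_rfl⟩, hyV⟩
      rw [hK] at h1
      exact h1

theorem evt_const (hcof : ∀ (ι : Type) (g : ι → W), Cardinal.mk ι ≤ Cardinal.continuum →
      ∃ b : W, ∀ i, g i < b) (u f : G) (w : W → ℤ) : ∃ b, Cst F u f (Nd w b) := by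
  have h1 : ∀ p : ℤ × ℤ, ∃ E : Finset (T W), FinBd E (U F ((p.2 • f - p.1 • u) ⊔ 0)) :=
    fun p => Og_fin (U_mem F _)
  choose E hE using h1
  have h2 : ∀ x : T W, ∃ b, x ∉ Nd w b := fun x => exists_not_mem_Nd x w
  choose B hB using h2
  let g : (Σ p : ℤ × ℤ, {e // e ∈ E p}) → W := fun q => B q.2.1
  obtain ⟨b, hb⟩ := hcof _ g ((Cardinal.mk_le_aleph0).trans Cardinal.aleph0_le_continuum)
  refine ⟨b, ?_⟩
  have key : ∀ x ∈ Nd w b, ∀ y ∈ Nd w b, D F u f x ⊆ D F u f y := by
    intro x hx y hy p hp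
    have hp' : x ∈ U F ((p.2 • f - p.1 • u) ⊔ 0) := hp
    rcases hE p (Nd w b) (Nd_ordConnected w b) (by
      intro e he hmem
      exact hB e (Nd_anti w (hb ⟨p, e, he⟩).le hmem)) with h | h
    · exact h hy
    · exfalso
      have : x ∈ Nd w b ∩ U F ((p.2 • f - p.1 • u) ⊔ 0) := ⟨hx, hp'⟩
      rw [h] at this
      exact this
  exact fun x hx y hy => Subset.antisymm (key x hx y hy) (key y hy x hx)

theorem recursion (nx : (W → ℤ) → W → ℤ) :
    ∃ z : W → ℤ, ∀ b, z b = nx (fun g => if g < b then z g else 0) b := by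
  classical
  refine ⟨(wellFounded_lt (α := W)).fix
    (fun b rec => nx (fun g => if h : g < b then rec g h else 0) b), fun b => ?_⟩
  rw [WellFounded.fix_eq]
  congr 1

include F in
theorem main_contra [Nonempty W]
    (hcof : ∀ (ι : Type) (g : ι → W), Cardinal.mk ι ≤ Cardinal.continuum →
      ∃ b : W, ∀ i, g i < b) : False := by
  classical
  obtain ⟨u0, hu0⟩ := U_surj F _ Og_univ
  let u := |u0|
  have hu : 0 ≤ u := abs_nonneg u0
  have huu : U F u = univ := by rw [U_abs, hu0]
  let phi : Set (T W) → G := fun K => if h : ∃ f, ¬ Cst F u f K then h.choose else 0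
  have hphi : ∀ w b, ¬ Cst F u (phi (Nd w b)) (Nd w b) := by
    intro w b
    have h := start F hu w b
    simp only [phi, dif_pos h]
    exact h.choose_spec
  let Good : (W → ℤ) → W → W → Prop := fun w b a =>
    ¬ Cst F u (phi (Nd w a)) (Nd w b) ∧ ∀ a', a' < a → Cst F u (phi (Nd w a')) (Nd w b)
  have hGood : ∀ w b, ∃ a, a ≤ b ∧ Good w b a := by
    intro w b
    let S : Set W := {a | ¬ Cst F u (phi (Nd w a)) (Nd w b)}
    have hS : S.Nonempty := ⟨b, hphi w b⟩
    let a := (wellFounded_lt (α := W)).min S hS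
    refine ⟨a, ?_, (wellFounded_lt (α := W)).min_mem S hS, fun a' ha' => ?_⟩
    · exact not_lt.mp ((wellFounded_lt (α := W)).not_lt_min S (hphi w b))
    · by_contra hc
      exact (wellFounded_lt (α := W)).not_lt_min S hc ha'
  have hGood_unique : ∀ w b a a', Good w b a → Good w b a' → a = a' := by
    intro w b a a' h h'
    rcases lt_trichotomy a a' with hl | hl | hl
    · exact absurd (h'.2 a hl) h.1
    · exact hl
    · exact absurd (h.2 a' hl) h'.1
  have hnext : ∀ w b, ∃ n : ℤ, ∀ a, Good w b a →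
      ¬ Cst F u (phi (Nd w a)) (Nd (Function.update w b n) (succ b)) := by
    intro w b
    obtain ⟨a0, _, ha0⟩ := hGood w b
    obtain ⟨n, hn⟩ := child F hu huu w b _ ha0.1
    refine ⟨n, fun a ha => ?_⟩
    rw [hGood_unique w b a a0 ha ha0]
    exact hn
  choose nx hnx using hnext
  obtain ⟨z, hz⟩ := recursion nx
  have htr : ∀ a b, a ≤ b → Nd (fun g => if g < b then z g else 0) a = Nd z a := by
    intro a b hab
    apply Nd_congr
    intro g hg
    simp [hg.trans_le hab]
  have hstep : ∀ a b, a ≤ b → Good z b a → ¬ Cst F u (phi (Nd z a)) (Nd z (succ b)) := by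
    intro a b hab hg
    have h1 : Good (fun g => if g < b then z g else 0) b a := by
      refine ⟨?_, fun a' ha' => ?_⟩
      · rw [htr a b hab, htr b b le_rfl]; exact hg.1
      · rw [htr a' b (ha'.le.trans hab), htr b b le_rfl]; exact hg.2 a' ha'
    have h2 := hnx _ b a h1
    rw [htr a b hab, ← hz b] at h2
    have h3 : Nd (Function.update (fun g => if g < b then z g else 0) b (z b)) (succ b) =
        Nd z (succ b) := by
      apply Nd_congr
      intro g hg
      rcases (lt_succ_iff.mp hg).lt_or_eq with h | h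
      · rw [Function.update_of_ne h.ne]; simp [h]
      · rw [h, Function.update_self]
    rw [h3] at h2
    exact h2
  let A : Set (T W) → Set (Set (ℤ × ℤ)) := fun K => {D0 | ∃ g, ∀ x ∈ K, D F u g x = D0}
  have hA : ∀ b b', b ≤ b' → A (Nd z b) ⊆ A (Nd z b') := by
    rintro b b' hb D0 ⟨g, hg⟩
    exact ⟨g, fun x hx => hg x (Nd_anti z hb hx)⟩
  have key : ∀ b0, ∃ l, ∃ D0 ∈ A (Nd z l), D0 ∉ A (Nd z b0) := by
    intro b0
    obtain ⟨a, hab, hga⟩ := hGood z b0
    let f := phi (Nd z a)
    let S : Set W := {b | Cst F u f (Nd z b)}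
    have hS : S.Nonempty := evt_const F hcof u f z
    let l := (wellFounded_lt (α := W)).min S hS
    have hl : Cst F u f (Nd z l) := (wellFounded_lt (α := W)).min_mem S hS
    have hlmin : ∀ b, b < l → ¬ Cst F u f (Nd z b) := fun b hb hc =>
      (wellFounded_lt (α := W)).not_lt_min S hc hb
    have hbl : b0 < l := by
      by_contra hcon
      exact hga.1 (Cst_mono F hl (Nd_anti z (not_lt.mp hcon)))
    have hsucc : ∀ b, b0 ≤ b → b < l → ¬ Cst F u f (Nd z (succ b)) := by
      intro b hb1 hb2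
      apply hstep a b (hab.trans hb1)
      exact ⟨hlmin b hb2, fun a' ha' => Cst_mono F (hga.2 a' ha') (Nd_anti z hb1)⟩
    obtain ⟨x0, hx0⟩ := Nd_nonempty z l
    refine ⟨l, D F u f x0, ⟨f, fun x hx => hl x hx x0 hx0⟩, ?_⟩
    rintro ⟨g, hg⟩
    have hVl : U F (f - g) ∩ Nd z l = ∅ := by
      apply Set.eq_empty_of_forall_notMem
      rintro x ⟨hx1, hx2⟩
      refine not_mem_of_D_eq F Og_empty Og_union Og_inter hu huu (Og_compl_singleton x) ?_ hx1
      rw [hg x (Nd_anti z hbl.le hx2)]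
      exact hl x hx2 x0 hx0
    obtain ⟨b, hb1, hb2, hb3⟩ := limit_lemma hbl (U_mem F (f - g)) hVl
    apply hsucc b hb1 hb2
    have h1 : ∀ x ∈ Nd z (succ b), D F u f x = D F u f x0 := by
      intro x hx
      rw [← hg x (Nd_anti z (hb1.trans (le_succ b)) hx)]
      apply D_eq_of_not_mem F Og_union
      intro hmem
      have : x ∈ U F (f - g) ∩ Nd z (succ b) := ⟨hmem, hx⟩
      rw [hb3] at this
      exact this
    intro x hx y hy
    rw [h1 x hx, h1 y hy]
  let be : Set (ℤ × ℤ) → W := fun D0 =>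
    if h : ∃ b, D0 ∈ A (Nd z b) then h.choose else Classical.arbitrary W
  obtain ⟨bs, hbs⟩ := hcof _ be (by
    rw [Cardinal.mk_set, Cardinal.mk_eq_aleph0, Cardinal.two_power_aleph0])
  obtain ⟨l, D0, h1, h2⟩ := key bs
  apply h2
  have h3 : ∃ b, D0 ∈ A (Nd z b) := ⟨l, h1⟩
  have h4 : D0 ∈ A (Nd z (be D0)) := by
    simp only [be, dif_pos h3]
    exact h3.choose_spec
  exact hA _ _ (hbs D0).le h4

end Pool.Agent.helper12
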